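import Pool.Agent.Helper57.BI.Defs

/-! BI-20: infinite products in `L⁴`. -/

set_option autoImplicit false

namespace Pool.Agent.Helper57.BI

open MeasureTheory Filter Topology

/-- Partial products `∏_{j<J} ρ j` of bounded functions converge in `L⁴` as soon as the factors are
close enough to `1` in `L¹`, with a closeness depending only on the bounds `C j`. -/
theorem inf_prod (C : ℕ → ℝ) (hC : ∀ j, 1 ≤ C j) (η : ℝ) (hη : 0 < η) :
    ∃ ε : ℕ → ℝ, (∀ j, 0 < ε j) ∧
      ∀ (X : Type) [MeasurableSpace X] (μ : Measure X) [IsProbabilityMeasure μ]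
        (ρ : ℕ → X → ℝ), (∀ j, Measurable (ρ j)) → (∀ j x, |ρ j x| ≤ C j) →
        (∀ j, ∫ x, |ρ j x - 1| ∂μ ≤ ε j) →
        ∃ f : X → ℝ, Measurable f ∧ MemLp f 4 μ ∧
          Tendsto (fun J : ℕ => eLpNorm (fun x => (∏ j ∈ Finset.range J, ρ j x) - f x) 4 μ)
            atTop (𝓝 0) ∧
          eLpNorm (fun x => f x - 1) 4 μ ≤ ENNReal.ofReal η := by
  classical
  set D : ℕ → ℝ := fun j => ∏ i ∈ Finset.range j, C i with hD
  have hC0 : ∀ j, 0 < C j := fun j => lt_of_lt_of_le one_pos (hC j)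
  have hD0 : ∀ j, 0 < D j := fun j => Finset.prod_pos fun i _ => hC0 i
  refine ⟨fun j => (η / 2 / 2 ^ j) ^ 4 / (D j ^ 4 * (C j + 1) ^ 3), fun j => ?_, ?_⟩
  · have := hC0 j
    have := hD0 j
    positivity
  intro X _ μ _ ρ hρm hρC hρ1
  set P : ℕ → X → ℝ := fun J x => ∏ j ∈ Finset.range J, ρ j x with hP
  have hPm : ∀ J, Measurable (P J) := fun J =>
    Finset.measurable_fun_prod _ fun j _ => hρm j
  have hPD : ∀ J x, |P J x| ≤ D J := by
    intro J x
    simp only [hP, hD, Finset.abs_prod]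
    exact Finset.prod_le_prod (fun _ _ => abs_nonneg _) fun j _ => hρC j x
  have hPL : ∀ J, MemLp (P J) 4 μ := fun J =>
    MemLp.of_bound (hPm J).aestronglyMeasurable (D J) (ae_of_all _ fun x => hPD J x)
  have hdiff : ∀ J x, P (J + 1) x - P J x = P J x * (ρ J x - 1) := by
    intro J x
    simp only [hP, Finset.prod_range_succ]
    ring
  have hρi : ∀ J, Integrable (fun x => |ρ J x - 1|) μ := by
    intro J
    refine Integrable.of_bound ((hρm J).sub_const 1).abs.aestronglyMeasurable (C J + 1)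
      (ae_of_all _ fun x => ?_)
    rw [Real.norm_eq_abs, abs_abs]
    calc |ρ J x - 1| ≤ |ρ J x| + |(1 : ℝ)| := abs_sub _ _
      _ ≤ C J + 1 := by rw [abs_one]; linarith [hρC J x]
  -- the key estimate
  have hkey : ∀ J, eLpNorm (fun x => P J x - P (J + 1) x) 4 μ ≤
      ENNReal.ofReal (η / 2 / 2 ^ J) := by
    intro J
    have hmem : MemLp (fun x => P J x - P (J + 1) x) 4 μ := (hPL J).sub (hPL (J + 1))
    rw [hmem.eLpNorm_eq_integral_rpow_norm (by norm_num) (by norm_num)]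
    refine ENNReal.ofReal_le_ofReal ?_
    have h4 : ((4 : ENNReal).toReal) = ((4 : ℕ) : ℝ) := by norm_num
    rw [h4]
    simp only [Real.rpow_natCast]
    have hb : ∫ x, ‖P J x - P (J + 1) x‖ ^ 4 ∂μ ≤ (η / 2 / 2 ^ J) ^ 4 := by
      have hpt : ∀ x, ‖P J x - P (J + 1) x‖ ^ 4 ≤ (D J ^ 4 * (C J + 1) ^ 3) * |ρ J x - 1| := by
        intro x
        have h1 : ‖P J x - P (J + 1) x‖ = |P J x| * |ρ J x - 1| := by
          rw [Real.norm_eq_abs, abs_sub_comm, hdiff, abs_mul]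
        have h2 : |ρ J x - 1| ≤ C J + 1 := by
          calc |ρ J x - 1| ≤ |ρ J x| + |(1 : ℝ)| := abs_sub _ _
            _ ≤ C J + 1 := by rw [abs_one]; linarith [hρC J x]
        have h3 : 0 ≤ |ρ J x - 1| := abs_nonneg _
        rw [h1, mul_pow]
        have h5 : |P J x| ^ 4 ≤ D J ^ 4 := pow_le_pow_left₀ (abs_nonneg _) (hPD J x) 4
        have h6 : |ρ J x - 1| ^ 4 ≤ (C J + 1) ^ 3 * |ρ J x - 1| := by
          rw [pow_succ]
          exact mul_le_mul_of_nonneg_right (pow_le_pow_left₀ h3 h2 3) h3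
        calc |P J x| ^ 4 * |ρ J x - 1| ^ 4 ≤ D J ^ 4 * ((C J + 1) ^ 3 * |ρ J x - 1|) :=
              mul_le_mul h5 h6 (by positivity) (by have := hD0 J; positivity)
          _ = _ := by ring
      calc ∫ x, ‖P J x - P (J + 1) x‖ ^ 4 ∂μ
          ≤ ∫ x, (D J ^ 4 * (C J + 1) ^ 3) * |ρ J x - 1| ∂μ := by
            refine integral_mono_of_nonneg (ae_of_all _ fun x => by positivity)
              ((hρi J).const_mul _) (ae_of_all _ hpt)
        _ = (D J ^ 4 * (C J + 1) ^ 3) * ∫ x, |ρ J x - 1| ∂μ := integral_const_mul _ _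
        _ ≤ (D J ^ 4 * (C J + 1) ^ 3) * ((η / 2 / 2 ^ J) ^ 4 / (D J ^ 4 * (C J + 1) ^ 3)) := by
            refine mul_le_mul_of_nonneg_left (hρ1 J) ?_
            have := hD0 J
            have := hC0 J
            positivity
        _ = (η / 2 / 2 ^ J) ^ 4 := by
            have := hD0 J
            have := hC0 J
            field_simp
    have hnn : 0 ≤ ∫ x, ‖P J x - P (J + 1) x‖ ^ 4 ∂μ := integral_nonneg fun x => by positivity
    have hη2 : 0 ≤ η / 2 / 2 ^ J := by positivity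
    calc (∫ x, ‖P J x - P (J + 1) x‖ ^ 4 ∂μ) ^ (((4 : ℕ) : ℝ)⁻¹)
        ≤ ((η / 2 / 2 ^ J) ^ 4) ^ (((4 : ℕ) : ℝ)⁻¹) :=
          Real.rpow_le_rpow hnn hb (by positivity)
      _ = η / 2 / 2 ^ J := Real.pow_rpow_inv_natCast hη2 (by norm_num)
  have : Fact ((1 : ENNReal) ≤ 4) := ⟨by norm_num⟩
  let u : ℕ → Lp ℝ 4 μ := fun J => (hPL J).toLp (P J)
  have hdist : ∀ J, dist (u J) (u (J + 1)) ≤ η / 2 / 2 ^ J := by
    intro J
    rw [← ENNReal.ofReal_le_ofReal_iff (by positivity), ← edist_dist]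
    simp only [u]
    rw [Lp.edist_toLp_toLp]
    exact hkey J
  have hcau : CauchySeq u := cauchySeq_of_le_geometric_two hdist
  obtain ⟨a, ha⟩ := cauchySeq_tendsto_of_complete hcau
  obtain ⟨f, hfm, hfL, htoLp⟩ : ∃ f : X → ℝ, Measurable f ∧ ∃ h : MemLp f 4 μ, h.toLp f = a := by
    have ham : AEStronglyMeasurable (a : X → ℝ) μ := Lp.aestronglyMeasurable a
    have hfa : (a : X → ℝ) =ᵐ[μ] ham.mk _ := ham.ae_eq_mk
    have hfL : MemLp (ham.mk _) 4 μ := (memLp_congr_ae hfa).1 (Lp.memLp a)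
    refine ⟨ham.mk _, ham.stronglyMeasurable_mk.measurable, hfL, ?_⟩
    exact Lp.ext (hfL.coeFn_toLp.trans hfa.symm)
  refine ⟨f, hfm, hfL, ?_, ?_⟩
  · have h1 : (fun J : ℕ => eLpNorm (fun x => (∏ j ∈ Finset.range J, ρ j x) - f x) 4 μ)
        = fun J => edist (u J) a := by
      funext J
      rw [← htoLp]
      simp only [u]
      rw [Lp.edist_toLp_toLp]
      rfl
    rw [h1]
    exact tendsto_iff_edist_tendsto_0.1 ha
  · have h2 : dist (u 0) a ≤ η := dist_le_of_le_geometric_two_of_tendsto₀ hdist ha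
    have h3 : eLpNorm (fun x => f x - 1) 4 μ = edist a (u 0) := by
      rw [← htoLp]
      simp only [u]
      rw [Lp.edist_toLp_toLp]
      congr 1
    rw [h3, edist_comm, edist_dist]
    exact ENNReal.ofReal_le_ofReal h2

end Pool.Agent.Helper57.BI
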